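import Pool.Agent.Lib.MP_2231f7_an.Exist

set_option autoImplicit false

namespace Pool.Agent.Results.MP_2231f7_an.ExistsUnique

open Pool.Agent.Lib.MP_2231f7_an

/-- On every bounded open subset of the plane (in particular on every annular region), and for
every Lipschitz data map `u₀` from the closure to the circle, there is exactly one
infinity-harmonic circle-valued map with data `u₀`. -/
theorem result (Ω : Set (EuclideanSpace ℝ (Fin 2))) (hΩ : IsOpen Ω)
    (hbd : Bornology.IsBounded Ω) (u₀ : C(closure Ω, AddCircle (1 : ℝ)))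
    (L : NNReal) (hL : LipschitzWith L u₀) :
    ∃! u : closure Ω → AddCircle (1 : ℝ), IsInfinityHarmonic Ω u₀ u := by
  obtain ⟨u, hu⟩ := exists_isInfinityHarmonic hΩ hbd hL
  exact ⟨u, hu, fun v hv => hv.unique hΩ hbd hu⟩

end Pool.Agent.Results.MP_2231f7_an.ExistsUnique
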