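import Mathlib

set_option autoImplicit false

namespace Pool.Agent.Results.MP_2231f7_an.NeckThreshold

open Filter Topology Set

/-- Squared length of the differential of `φ` at the point `x = (θ, t)` for the metric
`r(t)^2 dθ^2 + dt^2`. -/
noncomputable def gradSq (r : ℝ → ℝ) (φ : ℝ × ℝ → ℝ) (x : ℝ × ℝ) : ℝ :=
  (fderiv ℝ φ x (1, 0)) ^ 2 / (r x.2) ^ 2 + (fderiv ℝ φ x (0, 1)) ^ 2

/-- The infinity-Laplacian `⟨dφ, d|dφ|^2⟩` for the metric `r(t)^2 dθ^2 + dt^2`. -/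
noncomputable def infLap (r : ℝ → ℝ) (φ : ℝ × ℝ → ℝ) (x : ℝ × ℝ) : ℝ :=
  fderiv ℝ φ x (1, 0) * fderiv ℝ (gradSq r φ) x (1, 0) / (r x.2) ^ 2 +
    fderiv ℝ φ x (0, 1) * fderiv ℝ (gradSq r φ) x (0, 1)

/-- Viscosity solution of the infinity-Laplace equation on `U`. -/
def IsViscositySolution (r : ℝ → ℝ) (U : Set (ℝ × ℝ)) (u : ℝ × ℝ → ℝ) : Prop :=
  ContinuousOn u U ∧ ∀ x ∈ U, ∀ φ : ℝ × ℝ → ℝ, ContDiffAt ℝ 2 φ x →
    (IsLocalMax (fun y => u y - φ y) x → 0 ≤ infLap r φ x) ∧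
    (IsLocalMin (fun y => u y - φ y) x → infLap r φ x ≤ 0)

/-- The pointwise Lipschitz constant of `v` for the metric is at most `L` at each point of `V`. -/
def SlopeLE (r : ℝ → ℝ) (V : Set (ℝ × ℝ)) (v : ℝ × ℝ → ℝ) (L : ℝ) : Prop :=
  ∀ x ∈ V, ∀ L' : ℝ, L < L' → ∀ᶠ y in 𝓝 x,
    |v y - v x| ≤ L' * Real.sqrt ((r x.2) ^ 2 * (y.1 - x.1) ^ 2 + (y.2 - x.2) ^ 2)

/-- `u` is absolutely minimizing in its homotopy class: no continuous lift `v` of a degree one map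
that agrees with `u` off an open set `V` has a smaller Lipschitz constant on `V`. -/
def IsAbsolutelyMinimizing (r : ℝ → ℝ) (a b : ℝ) (u : ℝ × ℝ → ℝ) : Prop :=
  ∀ V : Set (ℝ × ℝ), IsOpen V → V ⊆ Set.univ ×ˢ Set.Ioo a b → ∀ v : ℝ × ℝ → ℝ,
    ContinuousOn v (Set.univ ×ˢ Set.Icc a b) →
    (∀ θ, ∀ t ∈ Set.Icc a b, v (θ + 1, t) = v (θ, t) + 1) →
    (∀ x ∈ Set.univ ×ˢ Set.Icc a b, x ∉ V → v x = u x) →
    ∀ L : ℝ, SlopeLE r V v L → SlopeLE r V u L

/-- Lift of an absolutely minimizing degree one map with boundary values `θ` and `θ + τ`. -/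
def IsSolution (r : ℝ → ℝ) (a b τ : ℝ) (u : ℝ × ℝ → ℝ) : Prop :=
  ContinuousOn u (Set.univ ×ˢ Set.Icc a b) ∧
    (∀ θ, ∀ t ∈ Set.Icc a b, u (θ + 1, t) = u (θ, t) + 1) ∧
    (∀ θ, u (θ, a) = θ) ∧ (∀ θ, u (θ, b) = θ + τ) ∧ IsAbsolutelyMinimizing r a b u

theorem second_nonpos (ψ ψ' : ℝ → ℝ) (m : ℝ) (h1 : ∀ᶠ s in 𝓝 (0 : ℝ), HasDerivAt ψ (ψ' s) s)
    (h2 : HasDerivAt ψ' m 0) (hmax : IsLocalMax ψ 0) : m ≤ 0 := by
  by_contra hm
  have hm' : 0 < m := lt_of_not_ge hm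
  have hd : deriv ψ =ᶠ[𝓝 0] ψ' := h1.mono fun s hs => hs.deriv
  have hdd : deriv (deriv ψ) 0 = m := by rw [hd.deriv_eq, h2.deriv]
  have hc : ContinuousAt ψ 0 := h1.self_of_nhds.continuousAt
  have hmin : IsLocalMin ψ 0 :=
    isLocalMin_of_deriv_deriv_pos (by rw [hdd]; exact hm') hmax.deriv_eq_zero hc
  have he : ψ =ᶠ[𝓝 0] fun _ => ψ 0 := by
    filter_upwards [hmin, hmax] with s h h' using le_antisymm h' h
  have h0 : deriv (deriv ψ) 0 = 0 := by
    have h3 : deriv ψ =ᶠ[𝓝 0] deriv (fun _ : ℝ => ψ 0) := he.deriv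
    rw [h3.deriv_eq]
    simp
  linarith

theorem second_nonneg (ψ ψ' : ℝ → ℝ) (m : ℝ) (h1 : ∀ᶠ s in 𝓝 (0 : ℝ), HasDerivAt ψ (ψ' s) s)
    (h2 : HasDerivAt ψ' m 0) (hmin : IsLocalMin ψ 0) : 0 ≤ m := by
  have := second_nonpos (fun s => -ψ s) (fun s => -ψ' s) (-m) (h1.mono fun s hs => hs.neg) h2.neg
    hmin.neg
  linarith

/-- The operator at a point where `dφ = dθ + p dt`. -/
theorem infLap_eq (r : ℝ → ℝ) (φ : ℝ × ℝ → ℝ) (x : ℝ × ℝ) (p w : ℝ) (hφ : ContDiffAt ℝ 2 φ x)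
    (hw : HasDerivAt (fun t => 1 / (r t) ^ 2) w x.2)
    (h1 : fderiv ℝ φ x (1, 0) = 1) (h2 : fderiv ℝ φ x (0, 1) = p) :
    infLap r φ x =
      2 * fderiv ℝ (fderiv ℝ φ) x (1 / (r x.2) ^ 2, p) (1 / (r x.2) ^ 2, p) + p * w := by
  have hD : HasFDerivAt (fderiv ℝ φ) (fderiv ℝ (fderiv ℝ φ) x) x :=
    ((hφ.fderiv_right (m := 1) (by norm_num)).differentiableAt (by norm_num)).hasFDerivAt
  set D := fderiv ℝ (fderiv ℝ φ) x with hDdef
  have hA : ∀ e : ℝ × ℝ, HasFDerivAt (fun y => fderiv ℝ φ y e) (D.flip e) x := by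
    intro e
    have := hD.clm_apply (hasFDerivAt_const e x)
    simpa using this
  have hW : HasFDerivAt (fun y : ℝ × ℝ => 1 / (r y.2) ^ 2)
      (w • ContinuousLinearMap.snd ℝ ℝ ℝ) x :=
    hw.comp_hasFDerivAt x hasFDerivAt_snd
  have hG := (((hA (1, 0)).mul (hA (1, 0))).mul hW).add ((hA (0, 1)).mul (hA (0, 1)))
  have hfun : gradSq r φ = (fun y : ℝ × ℝ => fderiv ℝ φ y (1, 0)) *
      (fun y : ℝ × ℝ => fderiv ℝ φ y (1, 0)) * (fun y : ℝ × ℝ => 1 / (r y.2) ^ 2) +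
      (fun y : ℝ × ℝ => fderiv ℝ φ y (0, 1)) * (fun y : ℝ × ℝ => fderiv ℝ φ y (0, 1)) := by
    funext y
    simp only [gradSq, Pi.add_apply, Pi.mul_apply]
    ring
  have hξ : ((1 / (r x.2) ^ 2, p) : ℝ × ℝ) =
      (1 / (r x.2) ^ 2) • ((1, 0) : ℝ × ℝ) + p • ((0, 1) : ℝ × ℝ) := by
    simp
  unfold infLap
  rw [hfun, hG.fderiv, hξ]
  simp only [map_add, map_smul, add_apply, smul_apply,
    ContinuousLinearMap.flip_apply, ContinuousLinearMap.coe_snd', smul_eq_mul, Pi.mul_apply, h1, h2]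
  ring

/-- `θ + f(t)` is a viscosity solution if at each height `f' = 0` or `f'^2 + 1/r^2` is
stationary. -/
theorem visc (r f g : ℝ → ℝ) (hr : ContDiff ℝ 1 r) (hpos : ∀ t, 0 < r t)
    (hf : ∀ t, HasDerivAt f (g t) t)
    (hg : ∀ t, g t ≠ 0 → ∃ g' : ℝ, HasDerivAt g g' t ∧
      2 * g t * g' + deriv (fun s => 1 / (r s) ^ 2) t = 0)
    (U : Set (ℝ × ℝ)) : IsViscositySolution r U (fun y => y.1 + f y.2) := by
  have hfc : Continuous f := continuous_iff_continuousAt.2 fun t => (hf t).continuousAt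
  refine ⟨(continuous_fst.add (hfc.comp continuous_snd)).continuousOn, ?_⟩
  intro x _ φ hφ
  have hrd : Differentiable ℝ r := hr.differentiable (by norm_num)
  have hw : HasDerivAt (fun t => 1 / (r t) ^ 2) (deriv (fun s => 1 / (r s) ^ 2) x.2) x.2 := by
    apply DifferentiableAt.hasDerivAt
    exact (differentiableAt_const _).div ((hrd x.2).pow 2) (pow_ne_zero 2 (hpos x.2).ne')
  set w := deriv (fun s => 1 / (r s) ^ 2) x.2 with hwdef
  set p := g x.2 with hp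
  set κ := 1 / (r x.2) ^ 2 with hκ
  have hu : HasFDerivAt (fun y : ℝ × ℝ => y.1 + f y.2)
      (ContinuousLinearMap.fst ℝ ℝ ℝ + p • ContinuousLinearMap.snd ℝ ℝ ℝ) x :=
    hasFDerivAt_fst.add ((hf x.2).comp_hasFDerivAt x hasFDerivAt_snd)
  have hφd : HasFDerivAt φ (fderiv ℝ φ x) x :=
    (hφ.differentiableAt (by norm_num)).hasFDerivAt
  have hD : HasFDerivAt (fderiv ℝ φ) (fderiv ℝ (fderiv ℝ φ) x) x :=
    ((hφ.fderiv_right (m := 1) (by norm_num)).differentiableAt (by norm_num)).hasFDerivAt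
  -- the line through `x` in the direction of the gradient
  have hl : ∀ s : ℝ, HasDerivAt (fun s : ℝ => x + s • ((κ, p) : ℝ × ℝ)) ((κ, p) : ℝ × ℝ) s := by
    intro s
    simpa using ((hasDerivAt_id s).smul_const ((κ, p) : ℝ × ℝ)).const_add x
  have hl0 : x + (0 : ℝ) • ((κ, p) : ℝ × ℝ) = x := by simp
  have hlc : ContinuousAt (fun s : ℝ => x + s • ((κ, p) : ℝ × ℝ)) 0 := (hl 0).continuousAt
  have hlt : Tendsto (fun s : ℝ => x + s • ((κ, p) : ℝ × ℝ)) (𝓝 0) (𝓝 x) := by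
    have := hlc.tendsto
    rwa [hl0] at this
  obtain ⟨m, hm, hm0⟩ : ∃ m : ℝ, HasDerivAt (fun s : ℝ => g (x.2 + s * p) * p) m 0 ∧
      2 * m + p * w = 0 := by
    by_cases h0 : p = 0
    · refine ⟨0, ?_, by simp [h0]⟩
      simpa [h0] using hasDerivAt_const (0 : ℝ) (0 : ℝ)
    · obtain ⟨g', hg', he⟩ := hg x.2 h0
      have hlin : HasDerivAt (fun s : ℝ => x.2 + s * p) p 0 := by
        simpa using ((hasDerivAt_id (0 : ℝ)).mul_const p).const_add x.2
      have hg'' : HasDerivAt g g' (x.2 + 0 * p) := by simpa using hg'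
      refine ⟨g' * p * p, (hg''.comp 0 hlin).mul_const p, ?_⟩
      have : w = -(2 * p * g') := by rw [hwdef, hp]; linarith
      rw [this]; ring
  have hψ1 : ∀ᶠ s in 𝓝 (0 : ℝ), HasDerivAt
      (fun s : ℝ => ((x + s • ((κ, p) : ℝ × ℝ)).1 + f (x + s • ((κ, p) : ℝ × ℝ)).2) -
        φ (x + s • ((κ, p) : ℝ × ℝ)))
      (κ + g (x.2 + s * p) * p - fderiv ℝ φ (x + s • ((κ, p) : ℝ × ℝ)) (κ, p)) s := by
    filter_upwards [hlt.eventually (hφ.eventually (by simp))] with s hs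
    have ha : HasDerivAt (fun s : ℝ => x.1 + s * κ) κ s := by
      simpa using ((hasDerivAt_id s).mul_const κ).const_add x.1
    have hb : HasDerivAt (fun s : ℝ => x.2 + s * p) p s := by
      simpa using ((hasDerivAt_id s).mul_const p).const_add x.2
    have hc := (hs.differentiableAt (by norm_num)).hasFDerivAt.comp_hasDerivAt s (hl s)
    exact (ha.add ((hf (x.2 + s * p)).comp s hb)).sub hc
  have hψ2 : HasDerivAt
      (fun s : ℝ => κ + g (x.2 + s * p) * p - fderiv ℝ φ (x + s • ((κ, p) : ℝ × ℝ)) (κ, p))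
      (m - fderiv ℝ (fderiv ℝ φ) x (κ, p) (κ, p)) 0 := by
    have hA : HasFDerivAt (fun y => fderiv ℝ φ y (κ, p))
        ((fderiv ℝ (fderiv ℝ φ) x).flip (κ, p)) (x + (0 : ℝ) • ((κ, p) : ℝ × ℝ)) := by
      rw [hl0]
      have := hD.clm_apply (hasFDerivAt_const ((κ, p) : ℝ × ℝ) x)
      simpa using this
    have h4 := HasFDerivAt.comp_hasDerivAt (f := fun s : ℝ => x + s • ((κ, p) : ℝ × ℝ)) 0 hA (hl 0)
    exact (hm.const_add κ).sub h4
  have key : ∀ h : ContinuousLinearMap.fst ℝ ℝ ℝ + p • ContinuousLinearMap.snd ℝ ℝ ℝ -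
      fderiv ℝ φ x = 0, infLap r φ x =
        -2 * (m - fderiv ℝ (fderiv ℝ φ) x (κ, p) (κ, p)) := by
    intro h
    have h' := (sub_eq_zero.1 h).symm
    rw [infLap_eq r φ x p w hφ hw (by rw [h']; simp) (by rw [h']; simp)]
    linarith
  constructor
  · intro hmax
    rw [key (hmax.hasFDerivAt_eq_zero (hu.sub hφd))]
    have hmax' : IsLocalMax (fun y : ℝ × ℝ => y.1 + f y.2 - φ y)
        (x + (0 : ℝ) • ((κ, p) : ℝ × ℝ)) := by rwa [hl0]
    have := second_nonpos _ _ _ hψ1 hψ2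
      (IsLocalMax.comp_continuous (g := fun s : ℝ => x + s • ((κ, p) : ℝ × ℝ)) hmax' hlc)
    linarith
  · intro hmin
    rw [key (hmin.hasFDerivAt_eq_zero (hu.sub hφd))]
    have hmin' : IsLocalMin (fun y : ℝ × ℝ => y.1 + f y.2 - φ y)
        (x + (0 : ℝ) • ((κ, p) : ℝ × ℝ)) := by rwa [hl0]
    have := second_nonneg _ _ _ hψ1 hψ2
      (IsLocalMin.comp_continuous (g := fun s : ℝ => x + s • ((κ, p) : ℝ × ℝ)) hmin' hlc)
    linarith

theorem no_extremum (r f g : ℝ → ℝ) (hpos : ∀ t, 0 < r t) (hf : ∀ t, HasDerivAt f (g t) t)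
    (hP : ∀ t, g t ≠ 0 → ∀ᶠ s in 𝓝 t, g s ^ 2 + 1 / (r s) ^ 2 = g t ^ 2 + 1 / (r t) ^ 2)
    (v : ℝ × ℝ → ℝ) (x : ℝ × ℝ) (L' e : ℝ) (he : e = 1 ∨ e = -1)
    (hL : L' < Real.sqrt (g x.2 ^ 2 + 1 / (r x.2) ^ 2))
    (hv : ∀ᶠ y in 𝓝 x,
      |v y - v x| ≤ L' * Real.sqrt ((r x.2) ^ 2 * (y.1 - x.1) ^ 2 + (y.2 - x.2) ^ 2))
    (hx : ∀ᶠ y in 𝓝 x, g y.2 ^ 2 + 1 / (r y.2) ^ 2 = g x.2 ^ 2 + 1 / (r x.2) ^ 2 →
      e * (v y - (y.1 + f y.2)) ≤ e * (v x - (x.1 + f x.2))) : False := by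
  obtain ⟨p, hp⟩ : ∃ p, p = g x.2 := ⟨_, rfl⟩
  obtain ⟨κ, hκ⟩ : ∃ κ, κ = 1 / (r x.2) ^ 2 := ⟨_, rfl⟩
  have hr0 := hpos x.2
  have hκ0 : 0 < κ := by rw [hκ]; positivity
  have hκ1 : (r x.2) ^ 2 * κ = 1 := by rw [hκ]; field_simp
  rw [← hp, ← hκ] at hL hx
  obtain ⟨μ, hμ⟩ : ∃ μ, μ = Real.sqrt (p ^ 2 + κ) := ⟨_, rfl⟩
  have hμ0 : 0 < μ := by rw [hμ]; exact Real.sqrt_pos.2 (by positivity)
  have hμ2 : μ ^ 2 = p ^ 2 + κ := by rw [hμ]; exact Real.sq_sqrt (by positivity)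
  rw [← hμ] at hL
  have he2 : e ^ 2 = 1 := by rcases he with h | h <;> simp [h]
  have ha : HasDerivAt (fun s : ℝ => x.1 + s * (e * κ)) (e * κ) 0 := by
    simpa using ((hasDerivAt_id (0 : ℝ)).mul_const (e * κ)).const_add x.1
  have hb : HasDerivAt (fun s : ℝ => x.2 + s * (e * p)) (e * p) 0 := by
    simpa using ((hasDerivAt_id (0 : ℝ)).mul_const (e * p)).const_add x.2
  have hbt : Tendsto (fun s : ℝ => x.2 + s * (e * p)) (𝓝 0) (𝓝 x.2) := by
    simpa using hb.continuousAt.tendsto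
  have hat : Tendsto (fun s : ℝ => x.1 + s * (e * κ)) (𝓝 0) (𝓝 x.1) := by
    simpa using ha.continuousAt.tendsto
  have hlt : Tendsto (fun s : ℝ => ((x.1 + s * (e * κ), x.2 + s * (e * p)) : ℝ × ℝ)) (𝓝 0) (𝓝 x) :=
    hat.prodMk_nhds hbt
  have hG : ∀ᶠ s in 𝓝 (0 : ℝ), g (x.2 + s * (e * p)) ^ 2 + 1 / (r (x.2 + s * (e * p))) ^ 2 =
      p ^ 2 + κ := by
    by_cases h0 : p = 0
    · refine Eventually.of_forall fun s => ?_
      have : x.2 + s * (e * p) = x.2 := by rw [h0]; ring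
      rw [this, ← hp, ← hκ]
    · have := hbt.eventually (hP x.2 (by rw [← hp]; exact h0))
      rw [← hp, ← hκ] at this
      exact this
  have hf0 : HasDerivAt f p (x.2 + 0 * (e * p)) := by rw [hp]; simpa using hf x.2
  have hχ : HasDerivAt (fun s : ℝ => e * (x.1 + s * (e * κ) + f (x.2 + s * (e * p))) - L' * μ * s)
      (e * (e * κ + p * (e * p)) - L' * μ * 1) 0 :=
    ((ha.add (hf0.comp 0 hb)).const_mul e).sub ((hasDerivAt_id (0 : ℝ)).const_mul (L' * μ))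
  have hder : e * (e * κ + p * (e * p)) - L' * μ * 1 = μ * (μ - L') := by
    have : e * (e * κ + p * (e * p)) = e ^ 2 * (p ^ 2 + κ) := by ring
    rw [this, he2, ← hμ2]; ring
  rw [hder] at hχ
  have hs := (hasDerivAt_iff_tendsto_slope.1 hχ).mono_left (nhdsLT_le_nhdsNE 0)
  have hle : μ * (μ - L') ≤ 0 := by
    refine le_of_tendsto hs ?_
    filter_upwards [self_mem_nhdsWithin, nhdsWithin_le_nhds hG,
      nhdsWithin_le_nhds (hlt.eventually hv), nhdsWithin_le_nhds (hlt.eventually hx)]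
      with s hs0 h1 h2 h3
    have hs0' : s < 0 := hs0
    have h4 := h3 h1
    have h5 : Real.sqrt ((r x.2) ^ 2 * (x.1 + s * (e * κ) - x.1) ^ 2 +
        (x.2 + s * (e * p) - x.2) ^ 2) = -s * μ := by
      rw [Real.sqrt_eq_iff_mul_self_eq (by positivity) (by nlinarith)]
      have : (r x.2) ^ 2 * (x.1 + s * (e * κ) - x.1) ^ 2 + (x.2 + s * (e * p) - x.2) ^ 2 =
          e ^ 2 * s ^ 2 * (((r x.2) ^ 2 * κ) * κ + p ^ 2) := by ring
      rw [this, he2, hκ1]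
      nlinarith
    rw [h5, abs_le] at h2
    rw [slope_def_field, sub_zero]
    apply div_nonpos_of_nonneg_of_nonpos _ hs0'.le
    simp only [zero_mul, add_zero, mul_zero, sub_zero]
    rcases he with h | h <;> subst h <;> nlinarith [h2.1, h2.2]
  have : 0 < μ * (μ - L') := mul_pos hμ0 (by linarith)
  linarith

theorem slope_of_grad (r f g : ℝ → ℝ) (hpos : ∀ t, 0 < r t) (hf : ∀ t, HasDerivAt f (g t) t)
    (x : ℝ × ℝ) (L' : ℝ) (hL : Real.sqrt (g x.2 ^ 2 + 1 / (r x.2) ^ 2) < L') :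
    ∀ᶠ y : ℝ × ℝ in 𝓝 x, |y.1 + f y.2 - (x.1 + f x.2)| ≤
      L' * Real.sqrt ((r x.2) ^ 2 * (y.1 - x.1) ^ 2 + (y.2 - x.2) ^ 2) := by
  have hr0 := hpos x.2
  have h1 := (hf x.2).isLittleO.bound (sub_pos.2 hL)
  filter_upwards [continuous_snd.continuousAt.tendsto.eventually h1] with y hy
  rw [Real.norm_eq_abs, Real.norm_eq_abs, smul_eq_mul] at hy
  have e1 : y.1 + f y.2 - (x.1 + f x.2) =
      (y.1 - x.1 + (y.2 - x.2) * g x.2) + (f y.2 - f x.2 - (y.2 - x.2) * g x.2) := by ring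
  rw [e1]
  generalize f y.2 - f x.2 - (y.2 - x.2) * g x.2 = R at hy ⊢
  generalize y.1 - x.1 = A at hy ⊢
  generalize y.2 - x.2 = B at hy ⊢
  generalize g x.2 = p at hL hy ⊢
  generalize r x.2 = ρ at hL hy hr0 ⊢
  have h2 : |A + B * p| ≤ Real.sqrt (p ^ 2 + 1 / ρ ^ 2) * Real.sqrt (ρ ^ 2 * A ^ 2 + B ^ 2) := by
    rw [← Real.sqrt_mul (by positivity)]
    apply Real.abs_le_sqrt
    have : (p ^ 2 + 1 / ρ ^ 2) * (ρ ^ 2 * A ^ 2 + B ^ 2) =
        (A + B * p) ^ 2 + (p * ρ * A - B / ρ) ^ 2 := by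
      field_simp
      ring
    rw [this]
    nlinarith [sq_nonneg (p * ρ * A - B / ρ)]
  have h3 : |B| ≤ Real.sqrt (ρ ^ 2 * A ^ 2 + B ^ 2) :=
    Real.abs_le_sqrt (by nlinarith [sq_nonneg (ρ * A)])
  have h4 := mul_le_mul_of_nonneg_left h3 (sub_pos.2 hL).le
  have h5 := abs_add_le (A + B * p) R
  linarith

theorem absmin (r f g : ℝ → ℝ) (hr : Continuous r) (hpos : ∀ t, 0 < r t) (hg : Continuous g)
    (hf : ∀ t, HasDerivAt f (g t) t)
    (hP : ∀ t, g t ≠ 0 → ∀ᶠ s in 𝓝 t, g s ^ 2 + 1 / (r s) ^ 2 = g t ^ 2 + 1 / (r t) ^ 2)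
    (a b : ℝ) : IsAbsolutelyMinimizing r a b (fun y => y.1 + f y.2) := by
  intro V hV hVs v hvc hvp hvu L hL x hx L' hL'
  refine slope_of_grad r f g hpos hf x L' (lt_of_le_of_lt ?_ hL')
  by_contra hlt
  obtain ⟨L'', h1, h2⟩ := exists_between (lt_of_not_ge hlt)
  have hfc : Continuous f := continuous_iff_continuousAt.2 fun t => (hf t).continuousAt
  have hGc : Continuous fun y : ℝ × ℝ => g y.2 ^ 2 + 1 / (r y.2) ^ 2 :=
    ((hg.comp continuous_snd).pow 2).add (continuous_const.div ((hr.comp continuous_snd).pow 2)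
      fun y => pow_ne_zero 2 (hpos _).ne')
  have hx2 : x.2 ∈ Icc a b := Ioo_subset_Icc_self (hVs hx).2
  have hcomp : IsCompact ((Icc (0 : ℝ) 1 ×ˢ Icc a b) ∩
      {y : ℝ × ℝ | g y.2 ^ 2 + 1 / (r y.2) ^ 2 = g x.2 ^ 2 + 1 / (r x.2) ^ 2}) :=
    (isCompact_Icc.prod isCompact_Icc).inter_right (isClosed_eq hGc continuous_const)
  have hmaxe : ∀ e : ℝ, ∃ z : ℝ × ℝ, z.2 ∈ Icc a b ∧
      g z.2 ^ 2 + 1 / (r z.2) ^ 2 = g x.2 ^ 2 + 1 / (r x.2) ^ 2 ∧
      ∀ y : ℝ × ℝ, y.2 ∈ Icc a b → g y.2 ^ 2 + 1 / (r y.2) ^ 2 = g x.2 ^ 2 + 1 / (r x.2) ^ 2 →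
        e * (v y - (y.1 + f y.2)) ≤ e * (v z - (z.1 + f z.2)) := by
    intro e
    have hwc : ContinuousOn (fun y : ℝ × ℝ => e * (v y - (y.1 + f y.2)))
        ((Icc (0 : ℝ) 1 ×ˢ Icc a b) ∩
          {y : ℝ × ℝ | g y.2 ^ 2 + 1 / (r y.2) ^ 2 = g x.2 ^ 2 + 1 / (r x.2) ^ 2}) := by
      refine continuousOn_const.mul ((hvc.mono fun y hy => ⟨mem_univ _, hy.1.2⟩).sub ?_)
      exact (continuous_fst.add (hfc.comp continuous_snd)).continuousOn
    obtain ⟨z, hz, hzm⟩ := hcomp.exists_isMaxOn ⟨(0, x.2), ⟨⟨le_rfl, zero_le_one⟩, hx2⟩, rfl⟩ hwc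
    refine ⟨z, hz.1.2, hz.2, fun y hy hGy => ?_⟩
    have hper : Function.Periodic (fun θ : ℝ => e * (v (θ, y.2) - (θ + f y.2))) 1 := by
      intro θ
      simp only [hvp θ y.2 hy]
      ring
    obtain ⟨θ, hθ, hθe⟩ := hper.exists_mem_Ico₀ zero_lt_one y.1
    have := hzm (a := (θ, y.2)) ⟨⟨Ico_subset_Icc_self hθ, hy⟩, hGy⟩
    simp only [mem_ofPred_eq] at this hθe
    rw [← hθe] at this
    exact this
  have hnb : ∀ z ∈ V, ∀ᶠ y : ℝ × ℝ in 𝓝 z, y.2 ∈ Icc a b := by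
    intro z hz
    filter_upwards [hV.mem_nhds hz] with y hy using Ioo_subset_Icc_self (hVs hy).2
  have hcase : ∀ e : ℝ, e = 1 ∨ e = -1 → ∀ y : ℝ × ℝ, y.2 ∈ Icc a b →
      g y.2 ^ 2 + 1 / (r y.2) ^ 2 = g x.2 ^ 2 + 1 / (r x.2) ^ 2 →
      e * (v y - (y.1 + f y.2)) ≤ 0 := by
    intro e he y hy hGy
    obtain ⟨z, hz, hGz, hzm⟩ := hmaxe e
    refine (hzm y hy hGy).trans ?_
    by_cases hzV : z ∈ V
    · exfalso
      refine no_extremum r f g hpos hf hP v z L'' e he (by rw [hGz]; exact h2)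
        (hL z hzV L'' h1) ?_
      filter_upwards [hnb z hzV] with y' hy' hG' using hzm y' hy' (hG'.trans hGz)
    · rw [hvu z ⟨mem_univ _, hz⟩ hzV]
      simp
  refine no_extremum r f g hpos hf hP v x L'' 1 (Or.inl rfl) h2 (hL x hx L'' h1) ?_
  filter_upwards [hnb x hx] with y hy hGy
  have h3 := hcase 1 (Or.inl rfl) y hy hGy
  have h4 := hcase (-1) (Or.inr rfl) x hx2 rfl
  linarith

/-- One branch of the slope: `sqrt (l - 1/r^2)`. -/
theorem branch (r : ℝ → ℝ) (hr : ContDiff ℝ 1 r) (hpos : ∀ t, 0 < r t) (e l t : ℝ)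
    (he : e ^ 2 = 1) (hne : e * Real.sqrt (l - 1 / (r t) ^ 2) ≠ 0) :
    ∃ g' : ℝ, HasDerivAt (fun s => e * Real.sqrt (l - 1 / (r s) ^ 2)) g' t ∧
      2 * (e * Real.sqrt (l - 1 / (r t) ^ 2)) * g' + deriv (fun s => 1 / (r s) ^ 2) t = 0 := by
  have hrd : Differentiable ℝ r := hr.differentiable (by norm_num)
  have hw : HasDerivAt (fun t => 1 / (r t) ^ 2) (deriv (fun s => 1 / (r s) ^ 2) t) t := by
    apply DifferentiableAt.hasDerivAt
    exact (differentiableAt_const _).div ((hrd t).pow 2) (pow_ne_zero 2 (hpos t).ne')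
  have hs : Real.sqrt (l - 1 / (r t) ^ 2) ≠ 0 := right_ne_zero_of_mul hne
  have hl : l - 1 / (r t) ^ 2 ≠ 0 := by
    intro h; rw [h] at hs; simp at hs
  refine ⟨_, ((hw.const_sub l).sqrt hl).const_mul e, ?_⟩
  generalize Real.sqrt (l - 1 / (r t) ^ 2) = q at hs
  generalize deriv (fun s => 1 / (r s) ^ 2) t = w
  field_simp
  rw [he]; ring

theorem branch_const (r : ℝ → ℝ) (hr : Continuous r) (hpos : ∀ t, 0 < r t) (e l t : ℝ)
    (he : e ^ 2 = 1) (hne : e * Real.sqrt (l - 1 / (r t) ^ 2) ≠ 0) :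
    ∀ᶠ s in 𝓝 t, (e * Real.sqrt (l - 1 / (r s) ^ 2)) ^ 2 + 1 / (r s) ^ 2 = l := by
  have hs : 0 < l - 1 / (r t) ^ 2 :=
    Real.sqrt_pos.1 (lt_of_le_of_ne (Real.sqrt_nonneg _) (right_ne_zero_of_mul hne).symm)
  have hc : Continuous fun s => l - 1 / (r s) ^ 2 :=
    continuous_const.sub (continuous_const.div (hr.pow 2) fun x => pow_ne_zero 2 (hpos _).ne')
  filter_upwards [hc.continuousAt.eventually (lt_mem_nhds hs)] with s h
  rw [mul_pow, he, Real.sq_sqrt (le_of_lt h)]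
  ring

theorem level (r : ℝ → ℝ) (hr : Continuous r) (hpos : ∀ t, 0 < r t) (a b M h : ℝ) (hM : 0 ≤ M)
    (hh : |h| ≤ ∫ t in a..b, Real.sqrt (M - 1 / (r t) ^ 2)) :
    ∃ e l : ℝ, e ^ 2 = 1 ∧ l ≤ M ∧ ∫ t in a..b, e * Real.sqrt (l - 1 / (r t) ^ 2) = h := by
  have hc : Continuous fun l : ℝ => ∫ t in a..b, Real.sqrt (l - 1 / (r t) ^ 2) := by
    apply intervalIntegral.continuous_parametric_intervalIntegral_of_continuous'
    apply Continuous.sqrt
    exact continuous_fst.sub (continuous_const.div ((hr.comp continuous_snd).pow 2)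
      fun x => pow_ne_zero 2 (hpos _).ne')
  have h0 : ∫ t in a..b, Real.sqrt (0 - 1 / (r t) ^ 2) = 0 := by
    have : ∀ t, Real.sqrt (0 - 1 / (r t) ^ 2) = 0 := fun t =>
      Real.sqrt_eq_zero_of_nonpos (by have := hpos t; have : 0 < 1 / (r t) ^ 2 := by positivity
                                      linarith)
    simp only [this, intervalIntegral.integral_zero]
  obtain ⟨l, hl, hle⟩ := intermediate_value_Icc hM hc.continuousOn
    (show |h| ∈ Icc _ _ from ⟨by simp only [h0]; exact abs_nonneg h, hh⟩)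
  rcases le_total 0 h with h1 | h1
  · refine ⟨1, l, by norm_num, hl.2, ?_⟩
    rw [intervalIntegral.integral_const_mul, one_mul]
    rw [abs_of_nonneg h1] at hle; exact hle
  · refine ⟨-1, l, by norm_num, hl.2, ?_⟩
    rw [intervalIntegral.integral_const_mul]
    rw [abs_of_nonpos h1] at hle
    simp only at hle
    rw [hle]; ring

theorem solution (r : ℝ → ℝ) (hr : ContDiff ℝ 1 r) (hpos : ∀ t, 0 < r t) (a c b τ h : ℝ)
    (hac : a ≤ c) (hcb : c ≤ b)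
    (h1 : |h| ≤ ∫ t in a..c, Real.sqrt (1 / (r c) ^ 2 - 1 / (r t) ^ 2))
    (h2 : |τ - h| ≤ ∫ t in c..b, Real.sqrt (1 / (r c) ^ 2 - 1 / (r t) ^ 2)) (U : Set (ℝ × ℝ)) :
    ∃ u : ℝ × ℝ → ℝ, ContDiff ℝ 1 u ∧ (∀ θ t, u (θ + 1, t) = u (θ, t) + 1) ∧
      (∀ θ, u (θ, a) = θ) ∧ (∀ θ, u (θ, b) = θ + τ) ∧ IsViscositySolution r U u ∧
      IsAbsolutelyMinimizing r a b u ∧ ∀ θ, u (θ, c) = θ + h := by
  have hrc : Continuous r := hr.continuous
  have hM : 0 ≤ 1 / (r c) ^ 2 := by positivity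
  obtain ⟨e₁, l₁, he₁, hl₁, hi₁⟩ := level r hrc hpos a c _ h hM h1
  obtain ⟨e₂, l₂, he₂, hl₂, hi₂⟩ := level r hrc hpos c b _ (τ - h) hM h2
  have hbc : ∀ e l : ℝ, Continuous fun t => e * Real.sqrt (l - 1 / (r t) ^ 2) := by
    intro e l
    refine continuous_const.mul (Continuous.sqrt ?_)
    exact continuous_const.sub (continuous_const.div (hrc.pow 2)
      fun x => pow_ne_zero 2 (hpos _).ne')
  have hz₁ : e₁ * Real.sqrt (l₁ - 1 / (r c) ^ 2) = 0 := by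
    rw [Real.sqrt_eq_zero_of_nonpos (by linarith), mul_zero]
  have hz₂ : e₂ * Real.sqrt (l₂ - 1 / (r c) ^ 2) = 0 := by
    rw [Real.sqrt_eq_zero_of_nonpos (by linarith), mul_zero]
  obtain ⟨g, hgc, hgl, hgr⟩ : ∃ g : ℝ → ℝ, Continuous g ∧
      (∀ t, t ≤ c → g t = e₁ * Real.sqrt (l₁ - 1 / (r t) ^ 2)) ∧
      (∀ t, c ≤ t → g t = e₂ * Real.sqrt (l₂ - 1 / (r t) ^ 2)) := by
    refine ⟨fun t => e₁ * Real.sqrt (l₁ - 1 / (r (min t c)) ^ 2) +
      e₂ * Real.sqrt (l₂ - 1 / (r (max t c)) ^ 2), ?_, ?_, ?_⟩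
    · exact ((hbc e₁ l₁).comp (continuous_id.min continuous_const)).add
        ((hbc e₂ l₂).comp (continuous_id.max continuous_const))
    · intro t ht
      simp only [min_eq_left ht, max_eq_right ht, hz₂, add_zero]
    · intro t ht
      simp only [min_eq_right ht, max_eq_left ht, hz₁, zero_add]
  have hf : ∀ t, HasDerivAt (fun t => ∫ s in a..t, g s) (g t) t := fun t =>
    (hgc.integral_hasStrictDerivAt a t).hasDerivAt
  have hfc : ∫ s in a..c, g s = h := by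
    rw [← hi₁]
    refine intervalIntegral.integral_congr fun t ht => hgl t ?_
    rw [uIcc_of_le hac] at ht; exact ht.2
  have hfb : ∫ s in a..b, g s = τ := by
    rw [← intervalIntegral.integral_add_adjacent_intervals (b := c)
      (hgc.intervalIntegrable _ _) (hgc.intervalIntegrable _ _), hfc]
    have : ∫ s in c..b, g s = τ - h := by
      rw [← hi₂]
      refine intervalIntegral.integral_congr fun t ht => hgr t ?_
      rw [uIcc_of_le hcb] at ht; exact ht.1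
    rw [this]; ring
  refine ⟨fun y => y.1 + ∫ s in a..y.2, g s, ?_, ?_, ?_, ?_, ?_, ?_, ?_⟩
  · have : ContDiff ℝ 1 fun t => ∫ s in a..t, g s := by
      rw [contDiff_one_iff_deriv]
      refine ⟨fun t => (hf t).differentiableAt, ?_⟩
      have : deriv (fun t => ∫ s in a..t, g s) = g := funext fun t => (hf t).deriv
      rw [this]; exact hgc
    exact contDiff_fst.add (this.comp contDiff_snd)
  · intro θ t; ring
  · intro θ; simp
  · intro θ; simp only [hfb]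
  · refine visc r _ g hr hpos hf ?_ U
    intro t ht
    rcases lt_trichotomy t c with hlt | heq | hgt
    · obtain ⟨g', hd, he⟩ := branch r hr hpos e₁ l₁ t he₁ (by rw [← hgl t hlt.le]; exact ht)
      refine ⟨g', hd.congr_of_eventuallyEq ?_, by rw [hgl t hlt.le]; exact he⟩
      filter_upwards [Iio_mem_nhds hlt] with s hs using hgl s (le_of_lt hs)
    · exact absurd (by rw [heq, hgl c le_rfl, hz₁]) ht
    · obtain ⟨g', hd, he⟩ := branch r hr hpos e₂ l₂ t he₂ (by rw [← hgr t hgt.le]; exact ht)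
      refine ⟨g', hd.congr_of_eventuallyEq ?_, by rw [hgr t hgt.le]; exact he⟩
      filter_upwards [Ioi_mem_nhds hgt] with s hs using hgr s (le_of_lt hs)
  · refine absmin r _ g hrc hpos hgc hf ?_ a b
    intro t ht
    rcases lt_trichotomy t c with hlt | heq | hgt
    · have hb := branch_const r hrc hpos e₁ l₁ t he₁ (by rw [← hgl t hlt.le]; exact ht)
      filter_upwards [Iio_mem_nhds hlt, hb] with s hs hs'
      rw [hgl s (le_of_lt hs), hgl t hlt.le, hs', hb.self_of_nhds]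
    · exact absurd (by rw [heq, hgl c le_rfl, hz₁]) ht
    · have hb := branch_const r hrc hpos e₂ l₂ t he₂ (by rw [← hgr t hgt.le]; exact ht)
      filter_upwards [Ioi_mem_nhds hgt, hb] with s hs hs'
      rw [hgr s (le_of_lt hs), hgr t hgt.le, hs', hb.self_of_nhds]
  · intro θ; simp only [hfc]

theorem side_pos (r : ℝ → ℝ) (hr : Continuous r) (hpos : ∀ t, 0 < r t) (a b c : ℝ) (hab : a < b)
    (h : ∃ t ∈ Icc a b, r c < r t) :
    0 < ∫ t in a..b, Real.sqrt (1 / (r c) ^ 2 - 1 / (r t) ^ 2) := by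
  have hc : Continuous fun t => Real.sqrt (1 / (r c) ^ 2 - 1 / (r t) ^ 2) :=
    Continuous.sqrt (continuous_const.sub (continuous_const.div (hr.pow 2)
      fun x => pow_ne_zero 2 (hpos _).ne'))
  have := intervalIntegral.integral_lt_integral_of_continuousOn_of_le_of_exists_lt
    (f := fun _ => (0 : ℝ)) hab continuousOn_const hc.continuousOn
    (fun x _ => Real.sqrt_nonneg _) (by
      obtain ⟨t, ht, hlt⟩ := h
      refine ⟨t, ht, Real.sqrt_pos.2 (sub_pos.2 ?_)⟩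
      have h1 := hpos c
      exact one_div_lt_one_div_of_lt (by positivity) (by nlinarith))
  simpa using this

theorem continuum (r : ℝ → ℝ) (hr : ContDiff ℝ 1 r) (hpos : ∀ t, 0 < r t) (a c b τ : ℝ)
    (hac : a < c) (hcb : c < b)
    (hl : ∃ t ∈ Set.Icc a c, r c < r t) (hu : ∃ t ∈ Set.Icc c b, r c < r t)
    (hτ : |τ| < ∫ t in a..b, Real.sqrt (1 / (r c) ^ 2 - 1 / (r t) ^ 2)) :
    ∃ h₁ h₂ : ℝ, h₁ < h₂ ∧ ∀ h ∈ Set.Icc h₁ h₂, ∃ u : ℝ × ℝ → ℝ,
      ContDiff ℝ 1 u ∧ (∀ θ t, u (θ + 1, t) = u (θ, t) + 1) ∧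
      (∀ θ, u (θ, a) = θ) ∧ (∀ θ, u (θ, b) = θ + τ) ∧
      IsViscositySolution r (Set.univ ×ˢ Set.Ioo a b) u ∧ IsAbsolutelyMinimizing r a b u ∧
      ∀ θ, u (θ, c) = θ + h := by
  have hA := side_pos r hr.continuous hpos a c c hac hl
  have hB := side_pos r hr.continuous hpos c b c hcb hu
  have hc : Continuous fun t => Real.sqrt (1 / (r c) ^ 2 - 1 / (r t) ^ 2) :=
    Continuous.sqrt (continuous_const.sub (continuous_const.div (hr.continuous.pow 2)
      fun x => pow_ne_zero 2 (hpos _).ne'))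
  rw [← intervalIntegral.integral_add_adjacent_intervals (b := c)
    (hc.intervalIntegrable _ _) (hc.intervalIntegrable _ _)] at hτ
  have hsol := fun h h1 h2 => solution r hr hpos a c b τ h hac.le hcb.le h1 h2
    (Set.univ ×ˢ Set.Ioo a b)
  generalize (∫ t in a..c, Real.sqrt (1 / (r c) ^ 2 - 1 / (r t) ^ 2)) = A at hA hτ hsol
  generalize (∫ t in c..b, Real.sqrt (1 / (r c) ^ 2 - 1 / (r t) ^ 2)) = B at hB hτ hsol
  rw [abs_lt] at hτ
  refine ⟨max (-A) (τ - B), min A (τ + B), ?_, fun h hh => hsol h ?_ ?_⟩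
  · rw [max_lt_iff, lt_min_iff, lt_min_iff]
    refine ⟨⟨?_, ?_⟩, ?_, ?_⟩ <;> linarith [hτ.1, hτ.2]
  · have h1 := (max_le_iff.1 hh.1).1
    have h2 := (le_min_iff.1 hh.2).1
    exact abs_le.2 ⟨h1, h2⟩
  · have h1 := (max_le_iff.1 hh.1).2
    have h2 := (le_min_iff.1 hh.2).2
    exact abs_le.2 ⟨by linarith, by linarith⟩

theorem no_extremum' (r f g : ℝ → ℝ) (hpos : ∀ t, 0 < r t) (hf : ∀ t, HasDerivAt f (g t) t)
    (v : ℝ × ℝ → ℝ) (x : ℝ × ℝ) (ε e σ : ℝ) (hε : 0 < ε) (he : e = 1 ∨ e = -1)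
    (hσ : σ = 1 ∨ σ = -1) (hg : 0 ≤ e * g x.2)
    (hv : ∀ L' : ℝ, Real.sqrt (g x.2 ^ 2 + 1 / (r x.2) ^ 2) < L' → ∀ᶠ y in 𝓝 x,
      |v y - v x| ≤ L' * Real.sqrt ((r x.2) ^ 2 * (y.1 - x.1) ^ 2 + (y.2 - x.2) ^ 2))
    (hx : ∀ᶠ y in 𝓝 x, σ * (v y - (y.1 + f y.2)) - ε * (σ * e) * y.2 ≤
      σ * (v x - (x.1 + f x.2)) - ε * (σ * e) * x.2) : False := by
  obtain ⟨p, hp⟩ : ∃ p, p = g x.2 := ⟨_, rfl⟩
  obtain ⟨κ, hκ⟩ : ∃ κ, κ = 1 / (r x.2) ^ 2 := ⟨_, rfl⟩
  have hr0 := hpos x.2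
  have hκ0 : 0 < κ := by rw [hκ]; positivity
  have hκ1 : (r x.2) ^ 2 * κ = 1 := by rw [hκ]; field_simp
  rw [← hp, ← hκ] at hv
  rw [← hp] at hg
  have he2 : e ^ 2 = 1 := by rcases he with h | h <;> simp [h]
  have hσ2 : σ ^ 2 = 1 := by rcases hσ with h | h <;> simp [h]
  obtain ⟨q, hq⟩ : ∃ q : ℝ, Real.sqrt (p ^ 2 + κ) * Real.sqrt (q ^ 2 + κ) <
      κ + p * q + ε * e * q := by
    by_cases h0 : p = 0
    · refine ⟨e * ε, ?_⟩
      rw [← Real.sqrt_mul (by positivity), h0]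
      have h1 : κ + 0 * (e * ε) + ε * e * (e * ε) = κ + ε ^ 2 := by
        have : ε * e * (e * ε) = e ^ 2 * ε ^ 2 := by ring
        rw [this, he2]; ring
      rw [h1, Real.sqrt_lt' (by positivity), mul_pow, he2]
      have : 0 < ε ^ 2 := by positivity
      nlinarith
    · refine ⟨p, ?_⟩
      rw [Real.mul_self_sqrt (by positivity)]
      have h1 : 0 < e * p := lt_of_le_of_ne hg (by
        intro h
        rcases mul_eq_zero.1 h.symm with h | h
        · rw [h] at he2; norm_num at he2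
        · exact h0 h)
      have := mul_pos hε h1
      nlinarith
  obtain ⟨N, hN⟩ : ∃ N, N = Real.sqrt (q ^ 2 + κ) := ⟨_, rfl⟩
  have hN0 : 0 < N := by rw [hN]; exact Real.sqrt_pos.2 (by positivity)
  have hN2 : N ^ 2 = q ^ 2 + κ := by rw [hN]; exact Real.sq_sqrt (by positivity)
  rw [← hN, ← lt_div_iff₀ hN0] at hq
  obtain ⟨L', hL1, hL2⟩ := exists_between hq
  rw [lt_div_iff₀ hN0] at hL2
  have hv' := hv L' hL1
  have ha : HasDerivAt (fun s : ℝ => x.1 + s * (σ * κ)) (σ * κ) 0 := by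
    simpa using ((hasDerivAt_id (0 : ℝ)).mul_const (σ * κ)).const_add x.1
  have hb : HasDerivAt (fun s : ℝ => x.2 + s * (σ * q)) (σ * q) 0 := by
    simpa using ((hasDerivAt_id (0 : ℝ)).mul_const (σ * q)).const_add x.2
  have hbt : Tendsto (fun s : ℝ => x.2 + s * (σ * q)) (𝓝 0) (𝓝 x.2) := by
    simpa using hb.continuousAt.tendsto
  have hat : Tendsto (fun s : ℝ => x.1 + s * (σ * κ)) (𝓝 0) (𝓝 x.1) := by
    simpa using ha.continuousAt.tendsto
  have hlt : Tendsto (fun s : ℝ => ((x.1 + s * (σ * κ), x.2 + s * (σ * q)) : ℝ × ℝ)) (𝓝 0) (𝓝 x) :=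
    hat.prodMk_nhds hbt
  have hf0 : HasDerivAt f p (x.2 + 0 * (σ * q)) := by rw [hp]; simpa using hf x.2
  have hχ : HasDerivAt
      (fun s : ℝ => σ * (x.1 + s * (σ * κ) + f (x.2 + s * (σ * q))) - (L' * N - ε * e * q) * s)
      (σ * (σ * κ + p * (σ * q)) - (L' * N - ε * e * q) * 1) 0 :=
    ((ha.add (hf0.comp 0 hb)).const_mul σ).sub
      ((hasDerivAt_id (0 : ℝ)).const_mul (L' * N - ε * e * q))
  have hder : σ * (σ * κ + p * (σ * q)) - (L' * N - ε * e * q) * 1 =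
      κ + p * q + ε * e * q - L' * N := by
    have : σ * (σ * κ + p * (σ * q)) = σ ^ 2 * (κ + p * q) := by ring
    rw [this, hσ2]; ring
  rw [hder] at hχ
  have hs := (hasDerivAt_iff_tendsto_slope.1 hχ).mono_left (nhdsLT_le_nhdsNE 0)
  have hle : κ + p * q + ε * e * q - L' * N ≤ 0 := by
    refine le_of_tendsto hs ?_
    filter_upwards [self_mem_nhdsWithin,
      nhdsWithin_le_nhds (hlt.eventually hv'), nhdsWithin_le_nhds (hlt.eventually hx)]
      with s hs0 h2 h4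
    have hs0' : s < 0 := hs0
    have h5 : Real.sqrt ((r x.2) ^ 2 * (x.1 + s * (σ * κ) - x.1) ^ 2 +
        (x.2 + s * (σ * q) - x.2) ^ 2) = -s * N := by
      rw [Real.sqrt_eq_iff_mul_self_eq (by positivity) (by nlinarith)]
      have : (r x.2) ^ 2 * (x.1 + s * (σ * κ) - x.1) ^ 2 + (x.2 + s * (σ * q) - x.2) ^ 2 =
          σ ^ 2 * s ^ 2 * (((r x.2) ^ 2 * κ) * κ + q ^ 2) := by ring
      rw [this, hσ2, hκ1]
      nlinarith
    rw [h5, abs_le] at h2
    rw [slope_def_field, sub_zero]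
    apply div_nonpos_of_nonneg_of_nonpos _ hs0'.le
    simp only [zero_mul, add_zero, mul_zero, sub_zero]
    rcases hσ with h | h <;> subst h <;> nlinarith [h2.1, h2.2]
  linarith

theorem rigid (r f g : ℝ → ℝ) (hpos : ∀ t, 0 < r t) (hf : ∀ t, HasDerivAt f (g t) t)
    (a b l e : ℝ) (hab : a ≤ b) (he : e = 1 ∨ e = -1)
    (hl : ∀ t ∈ Icc a b, g t ^ 2 + 1 / (r t) ^ 2 = l) (hg : ∀ t, 0 ≤ e * g t)
    (v : ℝ × ℝ → ℝ) (hvc : ContinuousOn v (univ ×ˢ Icc a b))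
    (hvp : ∀ θ, ∀ t ∈ Icc a b, v (θ + 1, t) = v (θ, t) + 1)
    (hva : ∀ θ, v (θ, a) = θ + f a) (hvb : ∀ θ, v (θ, b) = θ + f b)
    (hL : SlopeLE r (univ ×ˢ Ioo a b) v (Real.sqrt l)) :
    EqOn v (fun y => y.1 + f y.2) (univ ×ˢ Icc a b) := by
  have hfc : Continuous f := continuous_iff_continuousAt.2 fun t => (hf t).continuousAt
  have hone : ∀ σ : ℝ, σ = 1 ∨ σ = -1 → ∀ y : ℝ × ℝ, y.2 ∈ Icc a b →
      σ * (v y - (y.1 + f y.2)) ≤ 0 := by
    intro σ hσ y hy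
    have hse : σ * e = 1 ∨ σ * e = -1 := by
      rcases hσ with h | h <;> rcases he with h' | h' <;> simp [h, h']
    have hε : ∀ ε : ℝ, 0 < ε → σ * (v y - (y.1 + f y.2)) ≤ ε * (b - a) := by
      intro ε hε
      have hwc : ContinuousOn (fun y : ℝ × ℝ => σ * (v y - (y.1 + f y.2)) - ε * (σ * e) * y.2)
          (Icc (0 : ℝ) 1 ×ˢ Icc a b) := by
        refine (continuousOn_const.mul ((hvc.mono fun y hy => ⟨mem_univ _, hy.2⟩).sub ?_)).sub ?_
        · exact (continuous_fst.add (hfc.comp continuous_snd)).continuousOn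
        · exact (continuous_const.mul continuous_snd).continuousOn
      obtain ⟨z, hz, hzm⟩ := (isCompact_Icc.prod isCompact_Icc).exists_isMaxOn
        ⟨(0, a), ⟨le_rfl, zero_le_one⟩, le_rfl, hab⟩ hwc
      have hall : ∀ y : ℝ × ℝ, y.2 ∈ Icc a b →
          σ * (v y - (y.1 + f y.2)) - ε * (σ * e) * y.2 ≤
            σ * (v z - (z.1 + f z.2)) - ε * (σ * e) * z.2 := by
        intro y hy
        have hper : Function.Periodic
            (fun θ : ℝ => σ * (v (θ, y.2) - (θ + f y.2)) - ε * (σ * e) * y.2) 1 := by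
          intro θ
          simp only [hvp θ y.2 hy]
          ring
        obtain ⟨θ, hθ, hθe⟩ := hper.exists_mem_Ico₀ zero_lt_one y.1
        have := hzm (a := (θ, y.2)) ⟨Ico_subset_Icc_self hθ, hy⟩
        simp only [mem_ofPred_eq] at this hθe
        rw [← hθe] at this
        exact this
      have hz0 : v z = z.1 + f z.2 := by
        by_contra hne
        have hz2 : z.2 ∈ Ioo a b := by
          refine ⟨lt_of_le_of_ne hz.2.1 fun h => hne ?_, lt_of_le_of_ne hz.2.2 fun h => hne ?_⟩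
          · have := hva z.1
            rw [h] at this
            exact this
          · have := hvb z.1
            rw [← h] at this
            exact this
        refine no_extremum' r f g hpos hf v z ε e σ hε he hσ (hg _) ?_ ?_
        · rw [hl z.2 hz.2]
          exact hL z ⟨mem_univ _, hz2⟩
        · filter_upwards [continuous_snd.continuousAt.tendsto.eventually
            (isOpen_Ioo.mem_nhds hz2)] with y' hy' using hall y' (Ioo_subset_Icc_self hy')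
      have h1 := hall y hy
      rw [hz0] at h1
      have h2 := hz.2.1
      have h3 := hz.2.2
      have h4 := hy.1
      have h5 := hy.2
      rcases hse with h | h <;> rw [h] at h1 <;> nlinarith
    by_contra hpos'
    have hp : 0 < σ * (v y - (y.1 + f y.2)) := lt_of_not_ge hpos'
    have hba : 0 < b - a + 1 := by linarith
    have := hε (σ * (v y - (y.1 + f y.2)) / (b - a + 1)) (div_pos hp hba)
    rw [div_mul_eq_mul_div, le_div_iff₀ hba] at this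
    nlinarith
  intro y hy
  have h1 := hone 1 (Or.inl rfl) y hy.2
  have h2 := hone (-1) (Or.inr rfl) y hy.2
  show v y = y.1 + f y.2
  linarith

theorem unique (r : ℝ → ℝ) (hr : ContDiff ℝ 1 r) (hpos : ∀ t, 0 < r t) (a c b τ : ℝ)
    (hab : a < b) (hmin : ∀ t ∈ Icc a b, r c ≤ r t)
    (hτ : ∫ t in a..b, Real.sqrt (1 / (r c) ^ 2 - 1 / (r t) ^ 2) ≤ |τ|) :
    ∃ u, IsSolution r a b τ u ∧ ∀ v, IsSolution r a b τ v → EqOn v u (univ ×ˢ Icc a b) := by
  have hrc : Continuous r := hr.continuous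
  have hbc : ∀ l : ℝ, Continuous fun t => Real.sqrt (l - 1 / (r t) ^ 2) := by
    intro l
    exact Continuous.sqrt (continuous_const.sub (continuous_const.div (hrc.pow 2)
      fun x => pow_ne_zero 2 (hpos _).ne'))
  have hM : ∀ t ∈ Icc a b, 1 / (r t) ^ 2 ≤ 1 / (r c) ^ 2 := by
    intro t ht
    have h1 := hpos c
    have h2 := hmin t ht
    exact one_div_le_one_div_of_le (by positivity) (by nlinarith)
  have hc : Continuous fun l : ℝ => ∫ t in a..b, Real.sqrt (l - 1 / (r t) ^ 2) := by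
    apply intervalIntegral.continuous_parametric_intervalIntegral_of_continuous'
    apply Continuous.sqrt
    exact continuous_fst.sub (continuous_const.div ((hrc.comp continuous_snd).pow 2)
      fun x => pow_ne_zero 2 (hpos _).ne')
  have hba : 0 < b - a := sub_pos.2 hab
  have hbig : |τ| ≤ ∫ t in a..b,
      Real.sqrt (1 / (r c) ^ 2 + (|τ| / (b - a)) ^ 2 - 1 / (r t) ^ 2) := by
    have h1 : ∫ _ in a..b, |τ| / (b - a) = |τ| := by
      rw [intervalIntegral.integral_const, smul_eq_mul]; field_simp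
    refine h1.symm.le.trans (intervalIntegral.integral_mono_on hab.le
      (continuous_const.intervalIntegrable _ _) ((hbc _).intervalIntegrable _ _) fun t ht => ?_)
    exact Real.le_sqrt_of_sq_le (by linarith [hM t ht])
  obtain ⟨l, hl, hle⟩ := intermediate_value_Icc
    (show 1 / (r c) ^ 2 ≤ 1 / (r c) ^ 2 + (|τ| / (b - a)) ^ 2 from le_add_of_nonneg_right
      (sq_nonneg _)) hc.continuousOn (show |τ| ∈ Icc _ _ from ⟨hτ, hbig⟩)
  obtain ⟨e, he, heτ⟩ : ∃ e : ℝ, (e = 1 ∨ e = -1) ∧ e * |τ| = τ := by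
    rcases le_total 0 τ with h | h
    · exact ⟨1, Or.inl rfl, by rw [abs_of_nonneg h, one_mul]⟩
    · exact ⟨-1, Or.inr rfl, by rw [abs_of_nonpos h]; ring⟩
  have he2 : e ^ 2 = 1 := by rcases he with h | h <;> simp [h]
  have hgc : Continuous fun t => e * Real.sqrt (l - 1 / (r t) ^ 2) := continuous_const.mul (hbc l)
  have hf : ∀ t, HasDerivAt (fun t => ∫ s in a..t, e * Real.sqrt (l - 1 / (r s) ^ 2))
      (e * Real.sqrt (l - 1 / (r t) ^ 2)) t := fun t =>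
    (hgc.integral_hasStrictDerivAt a t).hasDerivAt
  have hfb : ∫ s in a..b, e * Real.sqrt (l - 1 / (r s) ^ 2) = τ := by
    rw [intervalIntegral.integral_const_mul]
    simp only at hle
    rw [hle, heτ]
  have hlev : ∀ t ∈ Icc a b, (e * Real.sqrt (l - 1 / (r t) ^ 2)) ^ 2 + 1 / (r t) ^ 2 = l := by
    intro t ht
    rw [mul_pow, he2, Real.sq_sqrt (by linarith [hM t ht, hl.1])]
    ring
  generalize hF : (fun t => ∫ s in a..t, e * Real.sqrt (l - 1 / (r s) ^ 2)) = f at hf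
  have hfa : f a = 0 := by rw [← hF]; simp
  have hfb' : f b = τ := by rw [← hF]; exact hfb
  have hfc : Continuous f := continuous_iff_continuousAt.2 fun t => (hf t).continuousAt
  have huc : ContinuousOn (fun y : ℝ × ℝ => y.1 + f y.2) (univ ×ˢ Icc a b) :=
    (continuous_fst.add (hfc.comp continuous_snd)).continuousOn
  refine ⟨fun y => y.1 + f y.2, ⟨huc, fun θ t _ => by ring, fun θ => by simp [hfa],
    fun θ => by simp [hfb'], ?_⟩, ?_⟩
  · refine absmin r f _ hrc hpos hgc hf ?_ a b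
    intro t ht
    have hb := branch_const r hrc hpos e l t he2 ht
    filter_upwards [hb] with s hs
    rw [hs, hb.self_of_nhds]
  · rintro v ⟨hvc, hvp, hva, hvb, hvm⟩
    refine rigid r f _ hpos hf a b l e hab.le he hlev ?_ v hvc hvp
      (fun θ => by rw [hva, hfa, add_zero]) (fun θ => by rw [hvb, hfb']) ?_
    · intro t
      have : e * (e * Real.sqrt (l - 1 / (r t) ^ 2)) = e ^ 2 * Real.sqrt (l - 1 / (r t) ^ 2) := by
        ring
      rw [this]; positivity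
    · refine hvm _ (isOpen_univ.prod isOpen_Ioo) Subset.rfl _ huc (fun θ t _ => by ring) ?_ _ ?_
      · rintro ⟨θ, t⟩ hx hn
        have ht : t = a ∨ t = b := by
          by_contra hcon
          rw [not_or] at hcon
          exact hn ⟨mem_univ _, lt_of_le_of_ne hx.2.1 (Ne.symm hcon.1),
            lt_of_le_of_ne hx.2.2 hcon.2⟩
        rcases ht with h | h
        · rw [h, hva]; simp [hfa]
        · rw [h, hvb]; simp [hfb']
      · intro x hx L' hL'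
        refine slope_of_grad r f _ hpos hf x L' ?_
        rw [hlev x.2 (Ioo_subset_Icc_self hx.2)]
        exact hL'

/-- On the annulus `R/Z × [a,b]` with the metric `r(t)^2 dθ^2 + dt^2`, let `t = c` be a shortest
parallel circle, with a longer one on each side. For degree one circle-valued maps (written through
their lifts) with boundary values `θ` and `θ + τ`, the absolutely minimizing map is unique exactly
when `|τ|` reaches an explicit bound; below the bound there is a continuum of `C^1` absolutely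
minimizing viscosity solutions. -/
theorem result (r : ℝ → ℝ) (hr : ContDiff ℝ 1 r) (hpos : ∀ t, 0 < r t) (a c b τ : ℝ)
    (hac : a < c) (hcb : c < b) (hmin : ∀ t ∈ Set.Icc a b, r c ≤ r t)
    (hl : ∃ t ∈ Set.Icc a c, r c < r t) (hu : ∃ t ∈ Set.Icc c b, r c < r t) :
    List.TFAE
      [∫ t in a..b, Real.sqrt (1 / (r c) ^ 2 - 1 / (r t) ^ 2) ≤ |τ|,
       ∃ u, IsSolution r a b τ u ∧
         ∀ v, IsSolution r a b τ v → Set.EqOn v u (Set.univ ×ˢ Set.Icc a b),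
       ¬ ∃ h₁ h₂ : ℝ, h₁ < h₂ ∧ ∀ h ∈ Set.Icc h₁ h₂, ∃ u, IsSolution r a b τ u ∧
         ContDiff ℝ 1 u ∧ IsViscositySolution r (Set.univ ×ˢ Set.Ioo a b) u ∧
         ∀ θ, u (θ, c) = θ + h] := by
  tfae_have 1 → 2 := unique r hr hpos a c b τ (hac.trans hcb) hmin
  tfae_have 2 → 3 := by
    rintro ⟨u, -, huu⟩ ⟨h₁, h₂, hlt, hall⟩
    obtain ⟨u₁, hs₁, -, -, hc₁⟩ := hall h₁ ⟨le_rfl, hlt.le⟩
    obtain ⟨u₂, hs₂, -, -, hc₂⟩ := hall h₂ ⟨hlt.le, le_rfl⟩
    have hm : ((0, c) : ℝ × ℝ) ∈ Set.univ ×ˢ Set.Icc a b := ⟨mem_univ _, hac.le, hcb.le⟩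
    have e₁ := huu u₁ hs₁ hm
    have e₂ := huu u₂ hs₂ hm
    rw [hc₁] at e₁
    rw [hc₂] at e₂
    linarith
  tfae_have 3 → 1 := by
    intro h3
    by_contra hlt
    obtain ⟨h₁, h₂, h12, hall⟩ := continuum r hr hpos a c b τ hac hcb hl hu (lt_of_not_ge hlt)
    refine h3 ⟨h₁, h₂, h12, fun h hh => ?_⟩
    obtain ⟨u, h1, h2, h3, h4, h5, h6, h7⟩ := hall h hh
    exact ⟨u, ⟨h1.continuous.continuousOn, fun θ t _ => h2 θ t, h3, h4, h6⟩, h1, h5, h7⟩
  tfae_finish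

end Pool.Agent.Results.MP_2231f7_an.NeckThreshold
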